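import Pool.Agent.H809Z.Berg.Geo

open scoped Topology
open Filter Metric Set Asymptotics

namespace Pool.Agent.H809Z.Ball.ViscPsi

section Jets

variable {E F : Type*} [NormedAddCommGroup E] [NormedSpace ℝ E] [NormedAddCommGroup F]
  [NormedSpace ℝ F]

/-- second order expansion at `0` of a function of one real variable -/
def Jet (f : ℝ → E) (a b c : E) : Prop :=
  (fun t => f t - (a + t • b + t ^ 2 • c)) =o[𝓝 0] fun t : ℝ => t ^ 2

lemma sq_littleO : (fun t : ℝ => t ^ 2) =o[𝓝 0] fun t : ℝ => t := by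
  simpa using isLittleO_pow_pow (𝕜 := ℝ) (show 1 < 2 by norm_num)

lemma smul_bigO (b : E) : (fun t : ℝ => t • b) =O[𝓝 0] fun t : ℝ => t := by
  apply IsBigO.of_bound ‖b‖
  filter_upwards with t
  rw [norm_smul, mul_comm]

lemma sq_smul_bigO (b : E) : (fun t : ℝ => t ^ 2 • b) =O[𝓝 0] fun t : ℝ => t ^ 2 := by
  apply IsBigO.of_bound ‖b‖
  filter_upwards with t
  rw [norm_smul, mul_comm]

lemma Jet.first {f : ℝ → E} {a b c : E} (h : Jet f a b c) :
    (fun t => f t - a - t • b) =o[𝓝 0] fun t : ℝ => t := by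
  have h1 := (h.trans sq_littleO).add ((sq_smul_bigO c).trans_isLittleO sq_littleO)
  refine h1.congr_left fun t => ?_
  abel

lemma Jet.bigO {f : ℝ → E} {a b c : E} (h : Jet f a b c) :
    (fun t => f t - a) =O[𝓝 0] fun t : ℝ => t := by
  have h1 := h.first.isBigO.add (smul_bigO b)
  refine h1.congr_left fun t => ?_
  abel

lemma Jet.tendsto {f : ℝ → E} {a b c : E} (h : Jet f a b c) : Tendsto f (𝓝 0) (𝓝 a) := by
  have h1 : Tendsto (fun t => f t - a) (𝓝 0) (𝓝 0) := h.bigO.trans_tendsto tendsto_id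
  simpa using h1.add_const a

lemma Jet.congr {f : ℝ → E} {a b c a' b' c' : E} (h : Jet f a b c) (ha : a = a') (hb : b = b')
    (hc : c = c') : Jet f a' b' c' := by
  subst ha hb hc; exact h

lemma Jet.add {f g : ℝ → E} {a b c a' b' c' : E} (h : Jet f a b c) (h' : Jet g a' b' c') :
    Jet (fun t => f t + g t) (a + a') (b + b') (c + c') := by
  refine (IsLittleO.add h h').congr_left fun t => ?_
  simp only [smul_add]
  abel

lemma Jet.sub {f g : ℝ → E} {a b c a' b' c' : E} (h : Jet f a b c) (h' : Jet g a' b' c') :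
    Jet (fun t => f t - g t) (a - a') (b - b') (c - c') := by
  refine (IsLittleO.sub h h').congr_left fun t => ?_
  simp only [smul_sub]
  abel

lemma jet_poly (a b c : E) : Jet (fun t : ℝ => a + t • b + t ^ 2 • c) a b c := by
  simp only [Jet, sub_self]
  exact isLittleO_zero _ _

lemma jet_const (a : E) : Jet (fun _ : ℝ => a) a 0 0 := by
  simpa using jet_poly a 0 0

lemma jet_sq (c : E) : Jet (fun t : ℝ => t ^ 2 • c) 0 0 c := by
  simpa using jet_poly 0 0 c

lemma Jet.clm {f : ℝ → E} {a b c : E} (h : Jet f a b c) (L : E →L[ℝ] F) :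
    Jet (fun t => L (f t)) (L a) (L b) (L c) := by
  refine ((L.isBigO_comp _ _).trans_isLittleO h).congr_left fun t => ?_
  simp

lemma Jet.const_mul {f : ℝ → ℝ} {a b c : ℝ} (h : Jet f a b c) (r : ℝ) :
    Jet (fun t => r * f t) (r * a) (r * b) (r * c) := by
  refine (IsLittleO.const_mul_left h r).congr_left fun t => ?_
  simp only [smul_eq_mul]
  ring

lemma Jet.bilin {f : ℝ → E} {b c : E} (h : Jet f 0 b c) (H : E →L[ℝ] E →L[ℝ] ℝ) :
    Jet (fun t => H (f t) (f t)) 0 0 (H b b) := by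
  have h1 : (fun t => f t - t • b) =o[𝓝 0] fun t : ℝ => t := by simpa using h.first
  refine (Berg.bilin_littleO H h1 (smul_bigO b)).congr_left fun t => ?_
  simp only [map_smul, smul_apply, smul_eq_mul]
  ring

lemma Jet.normSq {f : ℝ → E} {b c : E} (h : Jet f 0 b c) :
    Jet (fun t => ‖f t‖ ^ 2) 0 0 (‖b‖ ^ 2) := by
  have h1 : (fun t => f t - t • b) =o[𝓝 0] fun t : ℝ => t := by simpa using h.first
  have h2 : f =O[𝓝 0] fun t : ℝ => t := by simpa using h.bigO
  have h3 : (fun t => ‖f t‖ - ‖t • b‖) =o[𝓝 0] fun t : ℝ => t := by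
    refine IsBigO.trans_isLittleO ?_ h1
    apply IsBigO.of_bound 1
    filter_upwards with t
    rw [one_mul]
    exact abs_norm_sub_norm_le _ _
  have h4 : (fun t => ‖f t‖ + ‖t • b‖) =O[𝓝 0] fun t : ℝ => t :=
    h2.norm_left.add (smul_bigO b).norm_left
  have h5 := h3.mul_isBigO h4
  refine h5.congr (fun t => ?_) (fun t => by ring)
  simp only [norm_smul, smul_eq_mul, Real.norm_eq_abs]
  have : |t| ^ 2 = t ^ 2 := sq_abs t
  linear_combination (-‖b‖ ^ 2) * this

/-- composition with a scalar function -/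
lemma Jet.comp {φ f : ℝ → ℝ} {a b c p q r : ℝ} (hφ : Jet (fun w => φ (a + w)) p q r)
    (h : Jet f a b c) : Jet (fun t => φ (f t)) p (q * b) (q * c + r * b ^ 2) := by
  have h0 : Jet (fun t => f t - a) 0 b c := by
    simpa using h.sub (jet_const a)
  have h1 := IsLittleO.comp_tendsto hφ h0.tendsto
  have h2 : (fun t => (f t - a) ^ 2) =O[𝓝 0] fun t : ℝ => t ^ 2 := h.bigO.pow 2
  have h3 := h1.trans_isBigO h2
  have h4 := h0.const_mul q
  have h5 := h0.normSq.const_mul r
  refine ((h3.add h4).add h5).congr_left fun t => ?_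
  simp only [Function.comp_apply, smul_eq_mul, Real.norm_eq_abs, sq_abs, add_sub_cancel]
  ring

/-- composition with a twice differentiable function -/
lemma Jet.comp2 {φ : E → ℝ} {q : E} (hφ : ContDiffAt ℝ 2 φ q) {k : ℝ → E} {b c : E}
    (h : Jet k 0 b c) : Jet (fun t => φ (q + k t)) (φ q) (fderiv ℝ φ q b)
      (fderiv ℝ φ q c + 1 / 2 * fderiv ℝ (fderiv ℝ φ) q b b) := by
  have t1 : Tendsto (fun t => (q, k t)) (𝓝 0) (𝓝 (q, (0 : E))) :=
    tendsto_const_nhds.prodMk_nhds h.tendsto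
  have h1 := (Berg.taylor2 hφ).comp_tendsto t1
  have h2 : k =O[𝓝 0] fun t : ℝ => t := by simpa using h.bigO
  have h3 : (fun t => ‖k t‖ ^ 2) =O[𝓝 0] fun t : ℝ => t ^ 2 := h2.norm_left.pow 2
  have h4 := h1.trans_isBigO h3
  have h5 := h.clm (fderiv ℝ φ q)
  have h6 := (h.bilin (fderiv ℝ (fderiv ℝ φ) q)).const_mul (1 / 2)
  refine ((h4.add h5).add h6).congr_left fun t => ?_
  simp only [Function.comp_apply, smul_eq_mul, map_zero]
  ring

lemma jet_of_deriv {f f' : ℝ → E} {c : E} (h1 : ∀ᶠ w in 𝓝 (0 : ℝ), HasDerivAt f (f' w) w)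
    (h2 : HasDerivAt f' c 0) : Jet f (f 0) (f' 0) ((1 / 2 : ℝ) • c) := by
  obtain ⟨r, hr, hb⟩ := Metric.eventually_nhds_iff_ball.mp h1
  have e : 𝓝[ball (0 : ℝ) r] (0 : ℝ) = 𝓝 0 := isOpen_ball.nhdsWithin_eq (mem_ball_self hr)
  have key := (convex_ball (0 : ℝ) r).isLittleO_pow_succ_real (n := 1) (mem_ball_self hr)
    (f := fun t => f t - t • f' 0 - t ^ 2 • ((1 / 2 : ℝ) • c))
    (f' := fun t => f' t - f' 0 - t • c) (fun t ht => by
      have a1 : HasDerivAt (fun t : ℝ => t • f' 0) (f' 0) t := by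
        simpa using (hasDerivAt_id t).smul_const (f' 0)
      have a2 : HasDerivAt (fun t : ℝ => t ^ 2 • ((1 / 2 : ℝ) • c)) (t • c) t := by
        have := (hasDerivAt_pow 2 t).smul_const ((1 / 2 : ℝ) • c)
        refine this.congr_deriv ?_
        rw [smul_smul]
        congr 1
        norm_num
        ring
      exact (((hb t ht).sub a1).sub a2).hasDerivWithinAt)
    (by rw [e]; simpa using h2.isLittleO)
  rw [e] at key
  refine key.congr (fun t => ?_) (fun t => by simp)
  simp only [zero_smul, sub_zero, ne_eq, OfNat.ofNat_ne_zero, not_false_eq_true, zero_pow]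
  abel

lemma jet_exp (a : ℝ) : Jet (fun w => Real.exp (a + w)) (Real.exp a) (Real.exp a)
    (1 / 2 * Real.exp a) := by
  have h : ∀ w : ℝ, HasDerivAt (fun w => Real.exp (a + w)) (Real.exp (a + w)) w := fun w => by
    simpa using ((hasDerivAt_id w).const_add a).exp
  simpa using jet_of_deriv (Eventually.of_forall h) (h 0)

lemma jet_log {a : ℝ} (ha : 0 < a) : Jet (fun w => Real.log (a + w)) (Real.log a) a⁻¹
    (-(1 / 2) * a⁻¹ ^ 2) := by
  have h0 : ∀ᶠ w in 𝓝 (0 : ℝ), 0 < a + w := by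
    have : Tendsto (fun w : ℝ => a + w) (𝓝 0) (𝓝 a) :=
      Continuous.tendsto' (by fun_prop) _ _ (by simp)
    exact this.eventually (lt_mem_nhds ha)
  have h1 : ∀ᶠ w in 𝓝 (0 : ℝ), HasDerivAt (fun w => Real.log (a + w)) ((a + w)⁻¹) w := by
    filter_upwards [h0] with w hw
    simpa using ((hasDerivAt_id w).const_add a).log hw.ne'
  have h2 : HasDerivAt (fun w : ℝ => (a + w)⁻¹) (-(a⁻¹ ^ 2)) 0 := by
    have := ((hasDerivAt_id (0 : ℝ)).const_add a).inv (by simpa using ha.ne')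
    refine this.congr_deriv ?_
    simp [neg_div]
  refine (jet_of_deriv h1 h2).congr (by simp) (by simp) ?_
  simp

/-- a function with a positive definite jet is eventually nonnegative -/
lemma Jet.nonneg {f : ℝ → ℝ} {c : ℝ} (h : Jet f 0 0 c) (hc : 0 < c) :
    ∀ᶠ t in 𝓝 (0 : ℝ), 0 ≤ f t := by
  filter_upwards [IsLittleO.def h hc] with t ht
  simp only [smul_eq_mul, mul_zero, add_zero, zero_add, Real.norm_eq_abs, abs_pow, sq_abs] at ht
  have := (abs_le.mp ht).1
  nlinarith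

/-- symmetric sums -/
lemma Jet.symm_sum {f : ℝ → ℝ} {a b c : ℝ} (h : Jet f a b c) {ε : ℝ} (hε : 0 < ε) :
    ∀ᶠ t in 𝓝 (0 : ℝ), f t + f (-t) ≤ 2 * a + (2 * c + ε) * t ^ 2 := by
  have h1 := IsLittleO.def h (half_pos hε)
  have h2 : Tendsto (fun t : ℝ => -t) (𝓝 0) (𝓝 0) :=
    Continuous.tendsto' (by fun_prop) _ _ (by simp)
  filter_upwards [h1, h2.eventually h1] with t a1 a2
  simp only [smul_eq_mul, Real.norm_eq_abs, abs_pow, sq_abs] at a1 a2
  have b1 := (abs_le.mp a1).2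
  have b2 := (abs_le.mp a2).2
  nlinarith

end Jets

end Pool.Agent.H809Z.Ball.ViscPsi
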