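import Pool.Agent.H809Z.Ball.Basic
import Pool.Agent.H496Z.Ball.Jet

open scoped Topology ENNReal InnerProductSpace
open Filter Metric Set MeasureTheory

namespace Pool.Agent.H809Z.Ball

namespace ViscPsi

variable {n : ℕ}

/-- the real inner product as a functional -/
noncomputable def rin (v : En n) : En n →L[ℝ] ℝ :=
  Complex.reCLM.comp ((innerSL ℂ v).restrictScalars ℝ)

lemma rin_apply (v h : En n) : rin v h = (⟪v, h⟫_ℂ).re := rfl

lemma rin_I (v h : En n) : rin v (Complex.I • h) = -(⟪v, h⟫_ℂ).im := by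
  rw [rin_apply, inner_smul_right]; simp

lemma normSq_add (e h : En n) : ‖e + h‖ ^ 2 = ‖e‖ ^ 2 + 2 * rin e h + ‖h‖ ^ 2 := by
  rw [@norm_add_sq ℂ]; rfl

lemma rin_sq (e a : En n) : rin e a ^ 2 + rin e (Complex.I • a) ^ 2 ≤ ‖e‖ ^ 2 * ‖a‖ ^ 2 := by
  rw [rin_I, rin_apply, neg_sq]
  have h1 := norm_inner_le_norm (𝕜 := ℂ) e a
  have h2 : ‖⟪e, a⟫_ℂ‖ ^ 2 = (⟪e, a⟫_ℂ).re ^ 2 + (⟪e, a⟫_ℂ).im ^ 2 := by
    rw [Complex.sq_norm, Complex.normSq_apply]; ring
  rw [← h2, ← mul_pow]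
  gcongr

lemma rin_self {N : En n} (hN : ‖N‖ = 1) : rin N N = 1 := by
  rw [rin_apply, inner_self_eq_norm_sq_to_K, hN]; simp

/-- the differential at a nearest boundary point -/
lemma lagrange (S : St n) {z q : En n} (hz : z ∈ S.Ω) (hq : S.ρ q = 0) (hδ : S.δ z = ‖z - q‖) :
    ∃ N : En n, ‖N‖ = 1 ∧ q = z + S.δ z • N ∧
      ∀ h, fderiv ℝ S.ρ q h = ‖fderiv ℝ S.ρ q‖ * rin N h := by
  have h0 := S.delta_pos hz
  set d := S.δ z with hd
  set N : En n := d⁻¹ • (q - z) with hN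
  have n1 : ‖N‖ = 1 := by
    rw [hN, norm_smul, norm_sub_rev, ← hδ, norm_inv, Real.norm_of_nonneg h0.le,
      inv_mul_cancel₀ h0.ne']
  have n2 : q = z + d • N := by
    rw [hN, smul_smul, mul_inv_cancel₀ h0.ne', one_smul]; abel
  refine ⟨N, n1, n2, ?_⟩
  have hq2 : q ∈ closedBall z d := by
    rw [mem_closedBall, dist_comm, dist_eq_norm, hδ]
  have hmax : IsMaxOn S.ρ (closedBall z d) q := by
    intro y hy
    have h2 : closure (ball z d) ⊆ {y | S.ρ y ≤ 0} :=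
      closure_minimal (fun y hy => (S.mem_iff.mp (S.ball_delta z hy)).le)
        (isClosed_le S.cont continuous_const)
    rw [closure_ball z h0.ne'] at h2
    have := h2 hy
    simp only [mem_ofPred_eq] at this ⊢
    linarith
  set D := fderiv ℝ S.ρ q with hD
  have key : ∀ y : En n, ‖y‖ ≤ 1 → D y ≤ D N := by
    intro y hy
    have hw : z + d • y ∈ closedBall z d := by
      rw [mem_closedBall, dist_eq_norm, add_sub_cancel_left, norm_smul,
        Real.norm_of_nonneg h0.le]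
      nlinarith
    have h1 := hmax.localize.hasFDerivWithinAt_nonpos (S.diff q).hasFDerivAt.hasFDerivWithinAt
      (sub_mem_posTangentConeAt_of_segment_subset ((convex_closedBall z d).segment_subset hq2 hw))
    have e : z + d • y - q = d • (y - N) := by
      conv_lhs => rw [n2]
      rw [smul_sub]; abel
    rw [e, map_smul, map_sub, smul_eq_mul] at h1
    have := nonpos_of_mul_nonpos_right h1 h0
    linarith
  set G := (InnerProductSpace.toDual ℂ (En n)).symm (cx D) with hG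
  have g1 : ‖G‖ = ‖D‖ := by rw [hG, LinearIsometryEquiv.norm_map, norm_cx]
  have g2 : ∀ y, D y = rin G y := fun y => by
    rw [rin_apply, hG, InnerProductSpace.toDual_symm_apply, cx_re]
  have g3 : 0 < ‖D‖ := norm_pos_iff.mpr (S.hd q hq)
  have g4 : rin G G = ‖D‖ ^ 2 := by
    rw [rin_apply, inner_self_eq_norm_sq_to_K, g1]; norm_cast
  have g5 : ‖D‖ ≤ rin G N := by
    have := key (‖D‖⁻¹ • G) (by
      rw [norm_smul, norm_inv, norm_norm, g1, inv_mul_cancel₀ g3.ne'])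
    rw [g2, g2, map_smul, g4, smul_eq_mul] at this
    calc ‖D‖ = ‖D‖⁻¹ * ‖D‖ ^ 2 := by field_simp
      _ ≤ _ := this
  have g6 : G = ‖D‖ • N := by
    have a1 := normSq_add G (-(‖D‖ • N))
    rw [map_neg, map_smul, norm_neg, norm_smul, norm_norm, n1, g1, smul_eq_mul] at a1
    have a2 : ‖G + -(‖D‖ • N)‖ ^ 2 ≤ 0 := by nlinarith
    have a3 : ‖G + -(‖D‖ • N)‖ = 0 := by
      have := sq_nonneg ‖G + -(‖D‖ • N)‖
      exact pow_eq_zero_iff (two_ne_zero) |>.mp (le_antisymm a2 this)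
    rw [norm_eq_zero] at a3
    exact add_neg_eq_zero.mp a3
  intro h
  rw [g2, g6, rin_apply, rin_apply, ← Complex.coe_smul, inner_smul_left]
  simp

/-- the projection onto the real tangent space -/
noncomputable def pr (N : En n) : En n →L[ℝ] En n :=
  ContinuousLinearMap.id ℝ (En n) - (rin N).smulRight N

lemma pr_apply (N h : En n) : pr N h = h - rin N h • N := rfl

lemma rin_pr {N : En n} (hN : ‖N‖ = 1) (h : En n) : rin N (pr N h) = 0 := by
  rw [pr_apply, map_sub, map_smul, rin_self hN]; simp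

/-- upper barrier for the boundary distance along a curve -/
lemma barrier (S : St n) {z q N : En n} {d c σ : ℝ} (hq : S.ρ q = 0) (hN : ‖N‖ = 1)
    (hd : 0 < d) (hz : q = z + d • N) (hD : ∀ h, fderiv ℝ S.ρ q h = c * rin N h)
    {h : ℝ → En n} {A B : En n} (hh : Jet h 0 A B)
    (hσ : 0 < c * σ + 1 / 2 * fderiv ℝ (fderiv ℝ S.ρ) q (pr N A) (pr N A)) :
    ∀ᶠ t in 𝓝 (0 : ℝ), S.δ (z + h t) ≤ d - rin N (h t) + t ^ 2 • σ := by
  have j1 : Jet (fun t => pr N (h t) + t ^ 2 • (σ • N)) 0 (pr N A) (pr N B + σ • N) :=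
    ((hh.clm (pr N)).add (jet_sq (σ • N))).congr (by simp) (by simp) rfl
  have j2 := (j1.comp2 (S.hρ.contDiffAt (x := q))).congr hq
    (show fderiv ℝ S.ρ q (pr N A) = 0 by rw [hD, rin_pr hN, mul_zero])
    (show _ = c * σ + 1 / 2 * fderiv ℝ (fderiv ℝ S.ρ) q (pr N A) (pr N A) by
      rw [hD, map_add, rin_pr hN, map_smul, rin_self hN]; simp)
  have j3 := (((jet_const d).sub (hh.clm (rin N))).add (jet_sq σ)).tendsto
  have j4 := j3.eventually (lt_mem_nhds (show 0 < d - rin N 0 + 0 by simpa using hd))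
  filter_upwards [j2.nonneg hσ, j4] with t h1 h2
  refine (S.delta_le_dist h1).trans (le_of_eq ?_)
  have e : z + h t - (q + (pr N (h t) + t ^ 2 • (σ • N))) =
      -((d - rin N (h t) + t ^ 2 • σ) • N) := by
    rw [hz, pr_apply, add_smul, sub_smul, smul_smul, smul_eq_mul]
    abel
  rw [e, norm_neg, norm_smul, hN, mul_one, Real.norm_of_nonneg h2.le]

/-- jets of analytic curves along real lines -/
lemma jet_analytic {g : ℂ → En n} {x : ℂ} (hg : AnalyticAt ℂ g x) (u : ℂ) :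
    Jet (fun t : ℝ => g (x + t * u) - g x) 0 (u • deriv g x)
      (u ^ 2 • ((1 / 2 : ℝ) • deriv (deriv g) x)) := by
  have l1 : ∀ w : ℝ, HasDerivAt (fun t : ℝ => x + t * u) u w := fun w => by
    simpa using ((Complex.ofRealCLM.hasDerivAt (x := w)).mul_const u).const_add x
  have l2 : Tendsto (fun t : ℝ => x + t * u) (𝓝 0) (𝓝 x) :=
    Continuous.tendsto' (by fun_prop) _ _ (by simp)
  have c1 : ∀ {f : ℂ → En n} {w : ℝ}, DifferentiableAt ℂ f (x + w * u) →
      HasDerivAt (fun t : ℝ => f (x + t * u)) (u • deriv f (x + w * u)) w := by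
    intro f w hf
    have a1 := (hf.hasDerivAt.hasFDerivAt.restrictScalars ℝ).comp_hasDerivAt w (l1 w)
    exact a1.congr_deriv (by simp)
  have h1 : ∀ᶠ w : ℝ in 𝓝 (0 : ℝ), HasDerivAt (fun t : ℝ => g (x + t * u))
      (u • deriv g (x + w * u)) w := by
    filter_upwards [l2.eventually hg.eventually_analyticAt] with w hw
    exact c1 hw.differentiableAt
  have h2 : HasDerivAt (fun w : ℝ => u • deriv g (x + w * u)) (u • (u • deriv (deriv g) x)) 0 := by
    have a1 := c1 (f := deriv g) (w := 0) (by simpa using hg.deriv.differentiableAt)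
    exact (a1.const_smul u).congr_deriv (by simp)
  refine ((jet_of_deriv h1 h2).sub (jet_const (g x))).congr (by simp) (by simp) ?_
  rw [sub_zero, smul_smul u u, smul_comm, sq]

/-- the jet of the barrier of the Diederich-Fornaess function -/
lemma jet_psi {N e A B : En n} {d σ : ℝ} (η L : ℝ) (hd : 0 < d) {h : ℝ → En n}
    (hh : Jet h 0 A B) : ∃ b : ℝ,
    Jet (fun t => Real.exp (η * (Real.log (d - rin N (h t) + t ^ 2 • σ) - L * ‖e + h t‖ ^ 2)))
      (Real.exp (η * (Real.log d - L * ‖e‖ ^ 2))) b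
      (Real.exp (η * (Real.log d - L * ‖e‖ ^ 2)) * η *
        (d⁻¹ * (σ - rin N B) - 1 / 2 * (d⁻¹ * rin N A) ^ 2 - L * (2 * rin e B + ‖A‖ ^ 2) +
          η / 2 * (d⁻¹ * rin N A + 2 * L * rin e A) ^ 2)) := by
  have j1 : Jet (fun t => d - rin N (h t) + t ^ 2 • σ) d (-rin N A) (σ - rin N B) :=
    (((jet_const d).sub (hh.clm (rin N))).add (jet_sq σ)).congr (by simp) (by simp) (by ring)
  have j2 := (jet_log hd).comp j1
  have j3 : Jet (fun t => ‖e + h t‖ ^ 2) (‖e‖ ^ 2) (2 * rin e A) (2 * rin e B + ‖A‖ ^ 2) := by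
    have := ((jet_const (‖e‖ ^ 2)).add ((hh.clm (rin e)).const_mul 2)).add hh.normSq
    simp only [normSq_add]
    exact this.congr (by simp) (by simp) (by simp)
  have j4 := (j2.sub (j3.const_mul L)).const_mul η
  exact ⟨_, ((jet_exp _).comp j4).congr rfl rfl (by ring)⟩

/-- lower bound for the Hessian on real tangent vectors -/
lemma hess_lower {ρ : En n → ℝ} (hL : LeviNonneg ρ) {q N : En n} {c K : ℝ} (hq : ρ q = 0)
    (hN : ‖N‖ = 1) (hD : ∀ h, fderiv ℝ ρ q h = c * rin N h)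
    (hK : ‖fderiv ℝ (fderiv ℝ ρ) q‖ ≤ K) (a : En n) :
    -(2 * K * ‖a‖ * (|rin N a| + |rin N (Complex.I • a)|) +
        K * (rin N a ^ 2 + rin N (Complex.I • a) ^ 2)) ≤
      fderiv ℝ (fderiv ℝ ρ) q (pr N a) (pr N a) +
        fderiv ℝ (fderiv ℝ ρ) q (pr N (Complex.I • a)) (pr N (Complex.I • a)) := by
  set H := fderiv ℝ (fderiv ℝ ρ) q with hH
  set α := rin N a with hα
  set β := rin N (Complex.I • a) with hβ
  set M : En n := Complex.I • N with hM
  have m1 : ‖M‖ = 1 := by rw [hM, norm_smul, hN]; simp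
  have m2 : Complex.I • M = -N := by rw [hM, smul_smul]; simp
  have m3 : rin N M = 0 := by
    rw [hM, rin_I, inner_self_eq_norm_sq_to_K, hN]; simp
  set T : En n := a - α • N + β • M with hT
  have t1 : pr N a = T + (-β) • M := by rw [pr_apply, hT, neg_smul]; abel
  have t0 : Complex.I • T = Complex.I • a - α • M - β • N := by
    rw [hT, smul_add, smul_sub, smul_comm Complex.I α, smul_comm Complex.I β, m2, ← hM, smul_neg]
    abel
  have t2 : pr N (Complex.I • a) = Complex.I • T + α • M := by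
    rw [pr_apply, t0]; abel
  have t3 : rin N T = 0 := by
    rw [hT, map_add, map_sub, map_smul, map_smul, rin_self hN, m3]; simp [hα]
  have t4 : rin N (Complex.I • T) = 0 := by
    rw [t0, map_sub, map_sub, ← hβ, (rin N).map_smul α M, (rin N).map_smul β N, rin_self hN, m3]
    simp
  have t5 : 0 ≤ H T T + H (Complex.I • T) (Complex.I • T) :=
    hL q hq T ⟨by rw [hD, t3, mul_zero], by rw [hD, t4, mul_zero]⟩
  have t6 : ‖T‖ ≤ ‖a‖ := by
    have e : a = (α • N - β • M) + T := by rw [hT]; abel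
    have e2 := normSq_add (α • N - β • M) T
    rw [← e] at e2
    have e3 : rin (α • N - β • M) T = 0 := by
      have b1 : (⟪N, T⟫_ℂ).re = 0 := t3
      have b2 : (⟪N, T⟫_ℂ).im = 0 := by
        rw [rin_I] at t4; linarith
      have b3 : ⟪N, T⟫_ℂ = 0 := Complex.ext b1 b2
      rw [rin_apply, inner_sub_left, ← Complex.coe_smul, ← Complex.coe_smul, hM, inner_smul_left,
        inner_smul_left, inner_smul_left, b3]
      simp
    rw [e3] at e2
    nlinarith [norm_nonneg T, norm_nonneg a, sq_nonneg ‖α • N - β • M‖]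
  have hb : ∀ v w : En n, |H v w| ≤ K * ‖v‖ * ‖w‖ := fun v w =>
    (H.le_opNorm₂ v w).trans (by gcongr)
  have hK0 : 0 ≤ K := (ContinuousLinearMap.opNorm_nonneg H).trans hK
  have key : ∀ (V : En n) (s : ℝ), ‖V‖ ≤ ‖a‖ →
      H V V - 2 * K * ‖a‖ * |s| - K * s ^ 2 ≤ H (V + s • M) (V + s • M) := by
    intro V s hV
    simp only [map_add, map_smul, add_apply, smul_apply, smul_eq_mul]
    have c1 : |H V M| ≤ K * ‖a‖ := by
      have := hb V M
      rw [m1, mul_one] at this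
      exact this.trans (by gcongr)
    have c2 : |H M V| ≤ K * ‖a‖ := by
      have := hb M V
      rw [m1, mul_one] at this
      exact this.trans (by gcongr)
    have c3 : |H M M| ≤ K := by
      have := hb M M
      rwa [m1, mul_one, mul_one] at this
    have c4 : |s * H V M| ≤ |s| * (K * ‖a‖) := by rw [abs_mul]; gcongr
    have c5 : |s * H M V| ≤ |s| * (K * ‖a‖) := by rw [abs_mul]; gcongr
    have c6 := (abs_le.mp c4).1
    have c7 := (abs_le.mp c5).1
    have c8 := (abs_le.mp c3).1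
    nlinarith [sq_nonneg s]
  have k1 := key T (-β) t6
  have k2 := key (Complex.I • T) α (by rw [norm_smul]; simpa using t6)
  rw [t1, t2]
  rw [abs_neg, neg_sq] at k1
  linarith

lemma arith {C L η d X Y r s a E : ℝ} (hL : 8 * C ^ 2 ≤ L) (hη : 0 < η) (hη2 : η ≤ 3 / 4)
    (hd : C * d ≤ 1 / 12) (hE : 40 * η * L * E ≤ 1) (hr : r ^ 2 + s ^ 2 ≤ E * a ^ 2) :
    C * a * (|X| + |Y|) + C * d / 2 * (X ^ 2 + Y ^ 2) - 1 / 2 * X ^ 2 - 1 / 2 * Y ^ 2 -
      2 * L * a ^ 2 + η / 2 * (X + 2 * L * r) ^ 2 + η / 2 * (Y + 2 * L * s) ^ 2 ≤ 0 := by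
  have hL0 : 0 ≤ L := le_trans (by positivity) hL
  have h1 : (X + 2 * L * r) ^ 2 ≤ 10 / 9 * X ^ 2 + 40 * L ^ 2 * r ^ 2 := by
    nlinarith [sq_nonneg (X / 3 - 6 * L * r)]
  have h2 : (Y + 2 * L * s) ^ 2 ≤ 10 / 9 * Y ^ 2 + 40 * L ^ 2 * s ^ 2 := by
    nlinarith [sq_nonneg (Y / 3 - 6 * L * s)]
  have h3 : η / 2 * (40 * L ^ 2 * (r ^ 2 + s ^ 2)) ≤ L / 2 * a ^ 2 := by
    calc _ ≤ η / 2 * (40 * L ^ 2 * (E * a ^ 2)) := by gcongr
      _ = (40 * η * L * E) * (L / 2 * a ^ 2) := by ring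
      _ ≤ 1 * (L / 2 * a ^ 2) := by gcongr
      _ = _ := one_mul _
  have h4 : η / 2 * (X + 2 * L * r) ^ 2 + η / 2 * (Y + 2 * L * s) ^ 2 ≤
      5 / 12 * (X ^ 2 + Y ^ 2) + L / 2 * a ^ 2 := by
    have b1 : η / 2 * (X + 2 * L * r) ^ 2 ≤ η / 2 * (10 / 9 * X ^ 2 + 40 * L ^ 2 * r ^ 2) := by
      gcongr
    have b2 : η / 2 * (Y + 2 * L * s) ^ 2 ≤ η / 2 * (10 / 9 * Y ^ 2 + 40 * L ^ 2 * s ^ 2) := by
      gcongr
    have b3 : η * (X ^ 2 + Y ^ 2) ≤ 3 / 4 * (X ^ 2 + Y ^ 2) := by gcongr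
    nlinarith
  have h5 : C * d / 2 * (X ^ 2 + Y ^ 2) ≤ 1 / 24 * (X ^ 2 + Y ^ 2) := by
    have : C * d / 2 ≤ 1 / 24 := by linarith
    exact mul_le_mul_of_nonneg_right this (by positivity)
  have h6 : ∀ Z : ℝ, C * a * |Z| ≤ 1 / 24 * Z ^ 2 + 3 / 4 * L * a ^ 2 := by
    intro Z
    have b1 : 6 * (C * a) ^ 2 ≤ 3 / 4 * L * a ^ 2 := by nlinarith [sq_nonneg a]
    nlinarith [sq_nonneg (|Z| - 12 * C * a), sq_abs Z]
  have h7 := h6 X
  have h8 := h6 Y
  nlinarith

end ViscPsi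

open ViscPsi in
theorem viscPsi {n : ℕ} (S : St n) (hL : LeviNonneg S.ρ) : S.ViscPsi := by
  obtain ⟨R, -, hR⟩ := S.exists_radius
  obtain ⟨K, hK, hl⟩ := S.lip R
  obtain ⟨d₀, c₀, hd₀, hc₀, hg⟩ := S.grad_lower
  set C := K / c₀ with hC
  have hC0 : 0 < C := by positivity
  refine ⟨8 * C ^ 2, 1 / (12 * C), by positivity, by positivity, ?_⟩
  set L := 8 * C ^ 2 with hLdef
  intro η hη hη2 p g x hgx hΩ hδ hE ε hε
  obtain ⟨q, hq, hq2⟩ := S.nearest hΩ
  obtain ⟨N, hN, hz, hD⟩ := lagrange S hΩ hq hq2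
  have hd := S.delta_pos hΩ
  set d := S.δ (g x) with hdd
  set c := ‖fderiv ℝ S.ρ q‖ with hc
  have c1 : c₀ ≤ c := hg q (by linarith) hq.le
  have c2 : 0 < c := hc₀.trans_le c1
  set H := fderiv ℝ (fderiv ℝ S.ρ) q with hH
  have k1 : ‖H‖ ≤ C * c := by
    refine (hl q q (hR q hq.le) (hR q hq.le)).2.1.trans ?_
    calc K = C * c₀ := by rw [hC]; field_simp
      _ ≤ C * c := by gcongr
  set e := g x - p with he
  set a := deriv g x with ha
  set b := (1 / 2 : ℝ) • deriv (deriv g) x with hb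
  set w := Real.exp (η * (Real.log d - L * ‖e‖ ^ 2)) with hw
  have w0 : 0 < w := Real.exp_pos _
  set ε' := ε * d / (8 * w * η) with hε'
  have e0 : 0 < ε' := by positivity
  set σ : ℂ → ℝ := fun u => -(H (pr N (u • a)) (pr N (u • a))) / (2 * c) + ε' with hσ
  have main : ∀ u : ℂ, ∀ᶠ t : ℝ in 𝓝 0,
      S.Psi η L p (g (x + t * u)) + S.Psi η L p (g (x + (-t : ℝ) * u)) ≤ 2 * w +
        (2 * (w * η * (d⁻¹ * (σ u - rin N (u ^ 2 • b)) - 1 / 2 * (d⁻¹ * rin N (u • a)) ^ 2 -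
          L * (2 * rin e (u ^ 2 • b) + ‖u • a‖ ^ 2) +
          η / 2 * (d⁻¹ * rin N (u • a) + 2 * L * rin e (u • a)) ^ 2)) + ε / 4) * t ^ 2 := by
    intro u
    have j1 := jet_analytic hgx u
    have b1 := barrier S (σ := σ u) hq hN hd hz hD j1 (by
      have : c * σ u + 1 / 2 * H (pr N (u • a)) (pr N (u • a)) = c * ε' := by
        rw [hσ]; field_simp; ring
      rw [this]; positivity)
    obtain ⟨b', j2⟩ := jet_psi (N := N) (e := e) (σ := σ u) η L hd j1
    have l2 : Tendsto (fun t : ℝ => g (x + t * u)) (𝓝 0) (𝓝 (g x)) := by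
      simpa using j1.tendsto.add_const (g x)
    have b2 := l2.eventually (S.isOpen.mem_nhds hΩ)
    have b3 : ∀ᶠ t : ℝ in 𝓝 0, S.Psi η L p (g (x + t * u)) ≤
        Real.exp (η * (Real.log (d - rin N (g (x + t * u) - g x) + t ^ 2 • σ u) -
          L * ‖e + (g (x + t * u) - g x)‖ ^ 2)) := by
      filter_upwards [b1, b2] with t h1 h2
      rw [add_sub_cancel] at h1
      have e1 : e + (g (x + t * u) - g x) = g (x + t * u) - p := by rw [he]; abel
      have h3 := S.delta_pos h2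
      rw [e1, St.Psi]
      gcongr
    have h2 : Tendsto (fun t : ℝ => -t) (𝓝 0) (𝓝 0) :=
      Continuous.tendsto' (by fun_prop) _ _ (by simp)
    filter_upwards [b3, h2.eventually b3, j2.symm_sum (show 0 < ε / 4 by positivity)]
      with t a1 a2 a3
    exact (add_le_add a1 a2).trans a3
  have hs := hess_lower hL hq hN hD k1 a
  have fin := arith (C := C) (L := L) (η := η) (d := d) (X := d⁻¹ * rin N a)
    (Y := d⁻¹ * rin N (Complex.I • a)) (a := ‖a‖) le_rfl hη hη2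
    (by rw [le_div_iff₀ (by positivity)] at hδ; linarith) hE (rin_sq e a)
  have s1 : d⁻¹ * (σ 1 + σ Complex.I) ≤ C * ‖a‖ * (|d⁻¹ * rin N a| + |d⁻¹ * rin N (Complex.I • a)|) +
      C * d / 2 * ((d⁻¹ * rin N a) ^ 2 + (d⁻¹ * rin N (Complex.I • a)) ^ 2) + 2 * ε' * d⁻¹ := by
    have a1 : σ 1 + σ Complex.I ≤ C * ‖a‖ * (|rin N a| + |rin N (Complex.I • a)|) +
        C / 2 * (rin N a ^ 2 + rin N (Complex.I • a) ^ 2) + 2 * ε' := by
      simp only [hσ, one_smul]
      have : -(H (pr N a) (pr N a)) / (2 * c) +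
          -(H (pr N (Complex.I • a)) (pr N (Complex.I • a))) / (2 * c) ≤
          C * ‖a‖ * (|rin N a| + |rin N (Complex.I • a)|) +
          C / 2 * (rin N a ^ 2 + rin N (Complex.I • a) ^ 2) := by
        rw [← add_div, div_le_iff₀ (by positivity)]
        linarith
      linarith
    rw [abs_mul, abs_mul, abs_of_pos (inv_pos.mpr hd)]
    calc _ ≤ d⁻¹ * (C * ‖a‖ * (|rin N a| + |rin N (Complex.I • a)|) +
        C / 2 * (rin N a ^ 2 + rin N (Complex.I • a) ^ 2) + 2 * ε') := by gcongr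
      _ = _ := by field_simp
  have s2 : w * η * (2 * ε' * d⁻¹) = ε / 4 := by rw [hε']; field_simp; ring
  filter_upwards [mem_nhdsWithin_of_mem_nhds (main 1), mem_nhdsWithin_of_mem_nhds (main Complex.I)]
    with t m1 m2
  simp only [one_smul, one_pow, mul_one, Complex.ofReal_neg, ← sub_eq_add_neg] at m1
  simp only [Complex.I_sq, neg_smul, one_smul, map_neg, Complex.ofReal_neg, neg_mul,
    ← sub_eq_add_neg, norm_smul, Complex.norm_I, one_mul] at m2
  have hP : S.Psi η L p (g x) = w := rfl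
  simp only [hP]
  set Z₁ := d⁻¹ * (σ 1 - rin N b) - 1 / 2 * (d⁻¹ * rin N a) ^ 2 - L * (2 * rin e b + ‖a‖ ^ 2) +
    η / 2 * (d⁻¹ * rin N a + 2 * L * rin e a) ^ 2 with hZ₁
  set Z₂ := d⁻¹ * (σ Complex.I - -rin N b) - 1 / 2 * (d⁻¹ * rin N (Complex.I • a)) ^ 2 -
    L * (2 * -rin e b + ‖a‖ ^ 2) +
    η / 2 * (d⁻¹ * rin N (Complex.I • a) + 2 * L * rin e (Complex.I • a)) ^ 2 with hZ₂
  have z1 : Z₁ + Z₂ ≤ 2 * ε' * d⁻¹ := by
    rw [hZ₁, hZ₂]; linarith
  have z2 : w * η * (Z₁ + Z₂) ≤ ε / 4 := by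
    rw [← s2]; gcongr
  have z3 : (w * η * (Z₁ + Z₂)) * t ^ 2 ≤ ε / 4 * t ^ 2 := by gcongr
  linarith

end Pool.Agent.H809Z.Ball
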